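import Pool.Agent.Helper76.TX.StW

/-!
# Project TU, module PTL: potentials are linear
-/

set_option autoImplicit false

open UpperHalfPlane CongruenceSubgroup
open scoped MatrixGroups

namespace Pool.Agent.Helper71.TX

open Pool.Agent.Helper14.CV (G0 fc fz Fp IsPot StA1)
open Pool.Agent.Helper76.TX (StPtl Ptl)

private lemma sp (N : ℕ) : (1 : ℝ) ∈ (G0 N).strictPeriods := by
  rw [CongruenceSubgroup.strictPeriods_Gamma0]
  exact AddSubgroup.mem_zmultiples 1

private lemma fc_add {N : ℕ} [NeZero N] (f g : CuspForm (G0 N) 2) (m : ℕ) :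
    fc (f + g) m = fc f m + fc g m := by
  have h := ModularForm.qExpansion_add (Γ := G0 N) one_pos (sp N) f g
  simp only [fc]
  rw [FunLike.coe_add, h, map_add]

private lemma fc_smul {N : ℕ} [NeZero N] (c : ℂ) (f : CuspForm (G0 N) 2) (m : ℕ) :
    fc (c • f) m = c * fc f m := by
  have h := ModularForm.qExpansion_smul (Γ := G0 N) (k := 2) one_pos (sp N) c f
  simp only [fc]
  have h2 : ((c • f : CuspForm (G0 N) 2) : ℍ → ℂ) = c • (f : ℍ → ℂ) := rfl
  rw [h2, h]
  simp

private lemma fc_zero {N : ℕ} [NeZero N] (m : ℕ) : fc (0 : CuspForm (G0 N) 2) m = 0 := by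
  have h := fc_smul (0 : ℂ) (0 : CuspForm (G0 N) 2) m
  rwa [smul_zero, zero_mul] at h

private lemma im_pos' {a b c d : ℤ} (h : 0 < a * d - b * c) (x y : ℝ) (hy : 0 < y) :
    0 < (((a : ℂ) * (x + y * Complex.I) + b) / (c * (x + y * Complex.I) + d)).im := by
  have hre : ((c : ℂ) * (x + y * Complex.I) + d).re = c * x + d := by simp
  have him : ((c : ℂ) * (x + y * Complex.I) + d).im = c * y := by simp
  have hre' : ((a : ℂ) * (x + y * Complex.I) + b).re = a * x + b := by simp
  have him' : ((a : ℂ) * (x + y * Complex.I) + b).im = a * y := by simp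
  have hD : (0 : ℝ) < (a : ℝ) * d - b * c := by exact_mod_cast h
  have hne : ((c : ℂ) * (x + y * Complex.I) + d) ≠ 0 := by
    intro h0
    have h1 : (c : ℝ) * y = 0 := by rw [← him, h0, Complex.zero_im]
    have h2 : (c : ℝ) * x + d = 0 := by rw [← hre, h0, Complex.zero_re]
    have h3 : (c : ℝ) = 0 := by
      rcases mul_eq_zero.mp h1 with h | h
      · exact h
      · exact absurd h hy.ne'
    rw [h3, zero_mul, zero_add] at h2
    rw [h3, h2] at hD
    simp at hD
  have hn : 0 < Complex.normSq ((c : ℂ) * (x + y * Complex.I) + d) := Complex.normSq_pos.mpr hne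
  rw [Complex.div_im, hre, him, hre', him', ← sub_div]
  apply div_pos _ hn
  have : (a : ℝ) * y * (c * x + d) - (a * x + b) * (c * y) = y * (a * d - b * c) := by ring
  rw [this]
  exact mul_pos hy hD

private lemma pot_zero {N : ℕ} [NeZero N] : IsPot (0 : CuspForm (G0 N) 2) 0 := by
  intro a b c d _ x
  have : (fun y : ℝ => Fp (0 : CuspForm (G0 N) 2) ((a * (x + y * Complex.I) + b) /
      (c * (x + y * Complex.I) + d))) = fun _ => 0 := by
    funext y
    simp [Fp, fc_zero]
  rw [this]
  exact tendsto_const_nhds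

private lemma pot_add {N : ℕ} [NeZero N] (hA : StA1) {f g : CuspForm (G0 N) 2}
    {G H : ℤ → ℤ → ℂ} (hf : IsPot f G) (hg : IsPot g H) : IsPot (f + g) (G + H) := by
  intro a b c d hD x
  refine ((hf a b c d hD x).add (hg a b c d hD x)).congr' ?_
  filter_upwards [Filter.eventually_gt_atTop (0 : ℝ)] with y hy
  have hz := im_pos' hD x y hy
  have h1 := (hA N inferInstance f _ hz).1
  have h2 := (hA N inferInstance g _ hz).1
  simp only [Fp]
  rw [← h1.tsum_add h2]
  refine tsum_congr fun m => ?_
  rw [fc_add]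
  ring

private lemma pot_smul {N : ℕ} [NeZero N] (c' : ℂ) {f : CuspForm (G0 N) 2}
    {G : ℤ → ℤ → ℂ} (hf : IsPot f G) : IsPot (c' • f) (c' • G) := by
  intro a b c d hD x
  refine ((hf a b c d hD x).const_mul c').congr fun y => ?_
  simp only [Fp]
  rw [← tsum_mul_left]
  refine tsum_congr fun m => ?_
  rw [fc_smul]
  ring

theorem hPtl : StPtl := by
  intro hA N hN z f G hG c
  have key : ∀ s : Finset (Fin z), IsPot (∑ k ∈ s, c k • f k) (∑ k ∈ s, c k • G k) := by
    intro s
    induction s using Finset.induction_on with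
    | empty =>
      rw [Finset.sum_empty, Finset.sum_empty]
      exact pot_zero
    | insert k s hk ih =>
      rw [Finset.sum_insert hk, Finset.sum_insert hk]
      exact pot_add hA (pot_smul (c k) (hG k)) ih
  exact key Finset.univ

end Pool.Agent.Helper71.TX
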